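import Pool.Agent.R859.BT.REP
import Pool.Agent.R859.BT.GRP
import Pool.Agent.R859.BT.HOM
import Pool.Agent.R859.BT.SNAP
import Pool.Agent.R859.BT.UNIQ
import Pool.Agent.R859.BT.DZH
import Pool.Agent.R859.BT.HOLE
import Pool.Agent.R859.BT.EL
import Pool.Agent.R859.BT.PROP
import Pool.Agent.R859.BT.SEQ
import Pool.Agent.R859.BT.CORE
import Pool.Agent.R859.BT.NET
import Pool.Agent.R859.BT.GEO
import Pool.Agent.R859.BT.CHART
import Pool.Agent.R859.BT.BASE
import Pool.Agent.R859.BT.LIN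
import Pool.Agent.R859.BT.CLIMB
import Pool.Agent.R859.BT.FINE
import Pool.Agent.R859.BT.Final2

set_option autoImplicit false

/-!
MP_e0d06b_an, Q1: for closed `m`-manifolds in `ℝ^n` with small beta numbers the theta numbers are at
most `(1 + φ(δ))` times the beta numbers, with `φ(δ) ≤ 5000000 δ²`.

The proof is in `Pool/Agent/R859/BT` (see `notes.md` there); the pieces were formalized by several
agents of the team.
-/

namespace Pool.Agent.Results.MP_e0d06b_an.ThetaBeta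

open Metric Set Filter Topology

/-- The beta number of the closed ball `B(x,r)`:
`(1/r) inf_P sup {dist(z, x+P) : z ∈ B(x,r) ∩ X}`, `P` over the `m`-dimensional subspaces. -/
noncomputable def beta (m : ℕ) {n : ℕ} (X : Set (EuclideanSpace ℝ (Fin n)))
    (x : EuclideanSpace ℝ (Fin n)) (r : ℝ) : ℝ :=
  1 / r * ⨅ P : {P : Submodule ℝ (EuclideanSpace ℝ (Fin n)) // Module.finrank ℝ P = m},
    ⨆ z : ↥(closedBall x r ∩ X), infDist (z : EuclideanSpace ℝ (Fin n))
      ((fun u => x + u) '' (P.1 : Set (EuclideanSpace ℝ (Fin n))))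

/-- The theta number of the closed ball `B(x,r)`:
`(1/r) inf_P d_H((x+P) ∩ B(x,r), X ∩ B(x,r))`, `P` over the `m`-dimensional subspaces. -/
noncomputable def theta (m : ℕ) {n : ℕ} (X : Set (EuclideanSpace ℝ (Fin n)))
    (x : EuclideanSpace ℝ (Fin n)) (r : ℝ) : ℝ :=
  1 / r * ⨅ P : {P : Submodule ℝ (EuclideanSpace ℝ (Fin n)) // Module.finrank ℝ P = m},
    hausdorffDist ((fun u => x + u) '' (P.1 : Set (EuclideanSpace ℝ (Fin n))) ∩ closedBall x r)
      (X ∩ closedBall x r)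

/-- The `(m,δ,R)`-linear approximation property. -/
def LAP (m : ℕ) {n : ℕ} (δ R : ℝ) (X : Set (EuclideanSpace ℝ (Fin n))) : Prop :=
  ∀ x ∈ X, ∀ r, 0 < r → r < R → beta m X x r < δ

/-- A closed `m`-manifold in `ℝ^n`: a compact subset each point of which has, in the subset, an
open neighbourhood homeomorphic to an open subset of `ℝ^m`. -/
def ClosedManifold (m : ℕ) {n : ℕ} (M : Set (EuclideanSpace ℝ (Fin n))) : Prop :=
  IsCompact M ∧ ∀ x : M, ∃ e : OpenPartialHomeomorph M (EuclideanSpace ℝ (Fin m)), x ∈ e.source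

/-- Positive answer to Q1 of MP_e0d06b_an, with a quadratic bound for `φ`. -/
theorem result : ∀ m n : ℕ, 2 ≤ m → m + 1 ≤ n →
    ∃ δm : ℝ, 0 < δm ∧ δm < 1 ∧ ∃ φ : ℝ → ℝ, (∀ t ∈ Icc (0 : ℝ) 1, φ t ∈ Icc (0 : ℝ) 1) ∧
      Tendsto φ (𝓝[>] 0) (𝓝 0) ∧ (∀ t : ℝ, φ t ≤ 5000000 * t ^ 2) ∧
      ∀ M : Set (EuclideanSpace ℝ (Fin n)), ClosedManifold m M →
        ∀ δ R : ℝ, 0 < δ → δ < δm → 0 < R → LAP m δ R M →
          ∀ x ∈ M, ∀ r, 0 < r → r < R → theta m M x r ≤ (1 + φ δ) * beta m M x r := by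
  have hREP := R859.BT.t_REP
  have hGRP := R859.BT.t_GRP hREP
  have hHOM := R859.BT.t_HOM
  have hSNAP := R859.BT.t_SNAP
  have hUNIQ := R859.BT.t_UNIQ
  have hDZH := R859.BT.t_DZH hHOM
  have hHOLE := R859.BT.t_HOLE hREP hDZH
  have hEL := R859.BT.t_EL hREP hUNIQ
  have hPROP := R859.BT.t_PROP hREP hSNAP hGRP hEL hDZH
  have hSEQ := R859.BT.t_SEQ hSNAP hGRP hEL
  have hCORE := R859.BT.t_CORE hHOLE hPROP hSEQ hGRP
  have hBASE := R859.BT.t_BASE hCORE R859.BT.t_NET R859.BT.t_GEO R859.BT.t_CHART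
  have hCLIMB := R859.BT.t_CLIMB R859.BT.t_LIN
  have hFINE := R859.BT.t_FINE R859.BT.t_LIN
  exact R859.BT.final2 hBASE hCLIMB hFINE

end Pool.Agent.Results.MP_e0d06b_an.ThetaBeta
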